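import Pool.Agent.Helper29.AR.Props
import Pool.Agent.Helper82.SR.TD3B
import Pool.Agent.Helper10.RC.Homs
import Pool.Agent.Helper62.SR.Disj

/-!
# MP_b55b7c_an, packet AR-Half: halving at one tracial state
-/

open scoped ENNReal NNReal InnerProductSpace ComplexOrder
open Filter Topology

attribute [-instance] CStarMatrix.instAlgebra CStarMatrix.instModule CStarMatrix.instSMul
  CStarMatrix.instMulAction CStarMatrix.instDistribMulAction

set_option linter.unusedSectionVars false

noncomputable section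
namespace RC
universe u

namespace Half83

section alg
variable {D : Type u} [CStarAlgebra D]

theorem aeval_mul (c x : D) (p : Polynomial ℝ) :
    ∃ b : D, Polynomial.aeval (c * x * c) p * c = c * b := by
  refine ⟨x * c * Polynomial.aeval (c * x * c) p.divX * c + (p.coeff 0) • (1 : D), ?_⟩
  have h := congrArg (Polynomial.aeval (c * x * c)) (Polynomial.X_mul_divX_add p)
  rw [map_add, map_mul, Polynomial.aeval_X, Polynomial.aeval_C,
    Algebra.algebraMap_eq_smul_one] at h
  rw [← h]
  simp only [add_mul, mul_add, mul_assoc, smul_mul_assoc, mul_smul_comm, one_mul, mul_one]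

theorem cfc_mul_near (c x : D) (h0 : IsSelfAdjoint (c * x * c)) (g : ℝ → ℝ)
    (hg : Continuous g) (ε : ℝ) (hε : 0 < ε) :
    ∃ b : D, ‖cfc g (c * x * c) * c - c * b‖ ≤ ε := by
  have hcomp : IsCompact (spectrum ℝ (c * x * c)) :=
    ContinuousFunctionalCalculus.isCompact_spectrum _
  obtain ⟨M1, hM1⟩ := hcomp.bddAbove
  obtain ⟨M0, hM0⟩ := hcomp.bddBelow
  have hδ : 0 < ε / (‖c‖ + 1) := by positivity
  obtain ⟨p, hp⟩ := exists_polynomial_near_of_continuousOn M0 M1 g hg.continuousOn _ hδ
  obtain ⟨b, hb⟩ := aeval_mul c x p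
  refine ⟨b, ?_⟩
  rw [← hb, ← sub_mul, ← cfc_polynomial p (c * x * c) h0,
    ← cfc_sub g p.eval (c * x * c) hg.continuousOn p.continuous.continuousOn]
  have h1 : ‖cfc (fun t => g t - p.eval t) (c * x * c)‖ ≤ ε / (‖c‖ + 1) := by
    refine norm_cfc_le hδ.le fun t ht => ?_
    have := hp t ⟨hM0 ht, hM1 ht⟩
    rw [Real.norm_eq_abs, abs_sub_comm]
    exact this.le
  calc ‖cfc (fun t => g t - p.eval t) (c * x * c) * c‖
      ≤ ‖cfc (fun t => g t - p.eval t) (c * x * c)‖ * ‖c‖ := norm_mul_le _ _
    _ ≤ ε / (‖c‖ + 1) * ‖c‖ := mul_le_mul_of_nonneg_right h1 (norm_nonneg _)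
    _ ≤ ε / (‖c‖ + 1) * (‖c‖ + 1) := mul_le_mul_of_nonneg_left (by linarith) hδ.le
    _ = ε := by
      have : (‖c‖ + 1) ≠ 0 := by positivity
      field_simp

/-- `z` is in the hereditary subalgebra generated by `c`. -/
def InH (c z : D) : Prop := ∀ ε : ℝ, 0 < ε → ∃ b : D, ‖z - c * b * c‖ ≤ ε

theorem InH.add {c z w : D} (hz : InH c z) (hw : InH c w) : InH c (z + w) := by
  intro ε hε
  obtain ⟨b, hb⟩ := hz (ε / 2) (by positivity)
  obtain ⟨b', hb'⟩ := hw (ε / 2) (by positivity)
  refine ⟨b + b', ?_⟩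
  have e : z + w - c * (b + b') * c = (z - c * b * c) + (w - c * b' * c) := by
    rw [mul_add, add_mul]; abel
  rw [e]
  calc _ ≤ ‖z - c * b * c‖ + ‖w - c * b' * c‖ := norm_add_le _ _
    _ ≤ ε / 2 + ε / 2 := add_le_add hb hb'
    _ = ε := by ring

theorem inH_star {c z : D} (hc : IsSelfAdjoint c) (hz : InH c z) : InH c (star z) := by
  intro ε hε
  obtain ⟨b, hb⟩ := hz ε hε
  refine ⟨star b, ?_⟩
  have e : star z - c * star b * c = star (z - c * b * c) := by
    rw [star_sub, star_mul, star_mul, hc.star_eq, mul_assoc]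
  rw [e, norm_star]
  exact hb

theorem inH_w (c x y : D) (hc : IsSelfAdjoint c) (h0 : IsSelfAdjoint (c * x * c))
    (g h : ℝ → ℝ) (hg : Continuous g) (hh : Continuous h) :
    InH c (cfc g (c * x * c) * (c * y * c) * cfc h (c * x * c)) := by
  intro ε hε
  set G := cfc g (c * x * c) with hG
  set K := cfc h (c * x * c) with hK
  have hKs : star K = K := (cfc_predicate h (c * x * c) : IsSelfAdjoint K)
  obtain ⟨b, hb⟩ := cfc_mul_near c x h0 g hg (ε / (2 * (‖y‖ * ‖c * K‖ + 1))) (by positivity)
  obtain ⟨b', hb'⟩ := cfc_mul_near c x h0 h hh (ε / (2 * (‖c * b‖ * ‖y‖ + 1))) (by positivity)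
  rw [← hG] at hb
  rw [← hK] at hb'
  have hb2 : ‖c * K - star b' * c‖ ≤ ε / (2 * (‖c * b‖ * ‖y‖ + 1)) := by
    have e : c * K - star b' * c = star (K * c - c * b') := by
      rw [star_sub, star_mul, star_mul, hc.star_eq, hKs]
    rw [e, norm_star]
    exact hb'
  refine ⟨b * y * star b', ?_⟩
  have e : G * (c * y * c) * K - c * (b * y * star b') * c =
      (G * c - c * b) * y * (c * K) + c * b * y * (c * K - star b' * c) := by
    simp only [sub_mul, mul_sub, mul_assoc]
    abel
  rw [e]
  have h1 : ‖(G * c - c * b) * y * (c * K)‖ ≤ ε / 2 := by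
    calc _ ≤ ‖(G * c - c * b) * y‖ * ‖c * K‖ := norm_mul_le _ _
      _ ≤ ‖G * c - c * b‖ * ‖y‖ * ‖c * K‖ :=
        mul_le_mul_of_nonneg_right (norm_mul_le _ _) (norm_nonneg _)
      _ = ‖G * c - c * b‖ * (‖y‖ * ‖c * K‖) := by ring
      _ ≤ (ε / (2 * (‖y‖ * ‖c * K‖ + 1))) * (‖y‖ * ‖c * K‖ + 1) := by
        refine mul_le_mul hb (by linarith) (by positivity) (by positivity)
      _ = ε / 2 := by
        have : (‖y‖ * ‖c * K‖ + 1) ≠ 0 := by positivity
        field_simp
  have h2 : ‖c * b * y * (c * K - star b' * c)‖ ≤ ε / 2 := by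
    calc _ ≤ ‖c * b * y‖ * ‖c * K - star b' * c‖ := norm_mul_le _ _
      _ ≤ (‖c * b‖ * ‖y‖) * ‖c * K - star b' * c‖ :=
        mul_le_mul_of_nonneg_right (norm_mul_le _ _) (norm_nonneg _)
      _ ≤ (‖c * b‖ * ‖y‖ + 1) * (ε / (2 * (‖c * b‖ * ‖y‖ + 1))) := by
        refine mul_le_mul (by linarith) hb2 (norm_nonneg _) (by positivity)
      _ = ε / 2 := by
        have : (‖c * b‖ * ‖y‖ + 1) ≠ 0 := by positivity
        field_simp
  calc _ ≤ ‖(G * c - c * b) * y * (c * K)‖ + ‖c * b * y * (c * K - star b' * c)‖ :=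
        norm_add_le _ _
    _ ≤ ε / 2 + ε / 2 := add_le_add h1 h2
    _ = ε := by ring

end alg

section cu
variable {B : Type u} [CStarAlgebra B] [PartialOrder B] [StarOrderedRing B]

theorem norm_one1_le (x : B) : ‖one1 x‖ ≤ ‖x‖ :=
  NonUnitalStarAlgHom.norm_apply_le (one1H (A := B)) x

theorem cu_of_inH {c z : B} (hc : 0 ≤ c) (hz : IsSelfAdjoint z) (h : InH c z) :
    Cu (one1 (z * z)) (one1 c) := by
  intro ε hε
  set δ : ℝ := min 1 (ε / (2 * (2 * ‖z‖ + 1))) with hδ
  have hδ0 : 0 < δ := by positivity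
  obtain ⟨b, hb⟩ := h δ hδ0
  set t := c * b * c with ht
  set r := CFC.sqrt c with hr
  have hr0 : 0 ≤ r := CFC.sqrt_nonneg c
  have hrr : r * r = c := CFC.sqrt_mul_sqrt_self c hc
  have hrs : star r = r := hr0.isSelfAdjoint
  have hcs : star c = c := hc.isSelfAdjoint
  refine ⟨one1 (c * b * r), ?_⟩
  have o1m : ∀ a b : B, one1 (a * b) = one1 a * one1 b := fun a b => map_mul one1H a b
  have o1s : ∀ a : B, (one1 a).conjTranspose = one1 (star a) := fun a =>
    (map_star one1H a).symm
  have o1d : ∀ a b : B, one1 (a - b) = one1 a - one1 b := fun a b => map_sub one1H a b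
  rw [o1s, ← o1m, ← o1m, ← o1d]
  refine (norm_one1_le _).trans_lt ?_
  have e : c * b * r * c * star (c * b * r) - z * z = -(z * star (z - t) + (z - t) * star t) := by
    have e1 : c * b * r * c * star (c * b * r) = t * star t := by
      rw [ht, star_mul, star_mul, star_mul, star_mul, hrs, hcs]
      have : r * c * r = c * c := by
        rw [← hrr]
        simp only [mul_assoc]
      calc c * b * r * c * (r * (star b * c)) = c * b * (r * c * r) * (star b * c) := by
            simp only [mul_assoc]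
        _ = _ := by rw [this]; simp only [mul_assoc]
    rw [e1, star_sub, hz.star_eq, mul_sub, sub_mul]
    abel
  rw [e, norm_neg]
  have ht1 : ‖t‖ ≤ ‖z‖ + δ := by
    have : t = z - (z - t) := by abel
    rw [this]
    exact (norm_sub_le _ _).trans (by linarith)
  have hδ1 : δ ≤ 1 := min_le_left _ _
  have hδ2 : δ ≤ ε / (2 * (2 * ‖z‖ + 1)) := min_le_right _ _
  calc ‖z * star (z - t) + (z - t) * star t‖
      ≤ ‖z * star (z - t)‖ + ‖(z - t) * star t‖ := norm_add_le _ _
    _ ≤ ‖z‖ * ‖z - t‖ + ‖z - t‖ * ‖t‖ := by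
        refine add_le_add ((norm_mul_le _ _).trans ?_) ((norm_mul_le _ _).trans ?_)
        · rw [norm_star]
        · rw [norm_star]
    _ ≤ ‖z‖ * δ + δ * (‖z‖ + 1) := by
        refine add_le_add (mul_le_mul_of_nonneg_left hb (norm_nonneg _)) ?_
        exact mul_le_mul hb (ht1.trans (by linarith)) (norm_nonneg _) hδ0.le
    _ = δ * (2 * ‖z‖ + 1) := by ring
    _ ≤ ε / (2 * (2 * ‖z‖ + 1)) * (2 * ‖z‖ + 1) :=
        mul_le_mul_of_nonneg_right hδ2 (by positivity)
    _ = ε / 2 := by
        have : (2 * ‖z‖ + 1) ≠ 0 := by positivity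
        field_simp
    _ < ε := by linarith

theorem two_dim (hSwap : CuSwapP.{u}) (hMono : QMonoP.{u}) (hDs : QDsumP.{u}) (σ : QTrace B)
    (w : B) (hw : w * w = 0) :
    2 * σ.dim (one1 (sq w)) ≤ σ.dim (one1 ((w + star w) * (w + star w))) := by
  have hww : star w * star w = 0 := by rw [← star_mul, hw, star_zero]
  have e0 : (w + star w) * (w + star w) = w * star w + sq w := by
    rw [mul_add, add_mul, add_mul, hw, hww, zero_add, add_zero, add_comm]
  have hd : 0 ≤ sq w := star_mul_self_nonneg w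
  have hd' : 0 ≤ w * star w := mul_star_self_nonneg w
  have o1m : ∀ a b : B, one1 (a * b) = one1 a * one1 b := fun a b => map_mul one1H a b
  have o1s : ∀ a : B, (one1 a).conjTranspose = one1 (star a) := fun a =>
    (map_star one1H a).symm
  -- the ranks of `w* w` and of `w w*`
  have h1 : σ.dim (one1 (sq w)) ≤ σ.dim (one1 (w * star w)) := by
    refine hMono B σ Unit Unit _ _ (one1_nonneg hd) (one1_nonneg hd') ?_
    have := hSwap B Unit Unit (one1 (star w)) 0 le_rfl
    rw [o1s, ← o1m, ← o1m, star_star, cut_zero (one1_nonneg hd), cut_zero (one1_nonneg hd')] at this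
    exact this
  -- the row
  set T : CStarMatrix Unit (Unit ⊕ Unit) B :=
    CStarMatrix.ofMatrix fun _ j => Sum.elim (fun _ => w) (fun _ => star w) j with hT
  have hTT : T * T.conjTranspose = one1 ((w + star w) * (w + star w)) := by
    rw [e0]
    ext i j
    rw [CStarMatrix.mul_apply]
    simp [hT, one1, CStarMatrix.conjTranspose_apply]
  have hTs : T.conjTranspose * T = dsum (one1 (sq w)) (one1 (w * star w)) := by
    ext i j
    rw [CStarMatrix.mul_apply]
    rcases i with i | i <;> rcases j with j | j <;>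
      simp [hT, one1, dsum, CStarMatrix.conjTranspose_apply, hw, hww]
  have h2 := hDs B σ Unit Unit (one1 (sq w)) (one1 (w * star w)) (one1_nonneg hd)
    (one1_nonneg hd')
  have hz0 : 0 ≤ one1 ((w + star w) * (w + star w)) := by
    rw [← hTT]; exact cm_mul_conj_nonneg T
  have h3 : σ.dim (dsum (one1 (sq w)) (one1 (w * star w))) ≤
      σ.dim (one1 ((w + star w) * (w + star w))) := by
    refine hMono B σ (Unit ⊕ Unit) Unit _ _ h2.1 hz0 ?_
    have := hSwap B (Unit ⊕ Unit) Unit T.conjTranspose 0 le_rfl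
    rw [cm_conj_conj, hTs, hTT, cut_zero h2.1, cut_zero hz0] at this
    exact this
  rw [h2.2] at h3
  linarith

end cu

section vn
variable {H : Type u} [NormedAddCommGroup H] [InnerProductSpace ℂ H] [CompleteSpace H]

/-- From the commutation of `C X C` and `C Y C` to the commutation in the corner. -/
theorem corner (S : Set (H →L[ℂ] H)) (hS : ∀ x ∈ S, star x ∈ S) (C f : H →L[ℂ] H)
    (hC : star C = C) (hf : IsStarProjection f)
    (h1 : f * C = C) (h2 : C * f = C)
    (h3 : ∀ y : H →L[ℂ] H, y * C = 0 → y * f = 0)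
    (hcomm : ∀ X ∈ S.centralizer, ∀ Y ∈ S.centralizer,
      C * X * C * (C * Y * C) = C * Y * C * (C * X * C)) :
    ∀ X ∈ S.centralizer, ∀ Y ∈ S.centralizer, f * X * f * Y * f = f * Y * f * X * f := by
  have hfs : star f = f := hf.isSelfAdjoint
  have hff : f * f = f := hf.isIdempotentElem
  have hst : ∀ X ∈ S.centralizer, star X ∈ S.centralizer := by
    intro X hX s hs
    have := hX (star s) (hS s hs)
    have := congrArg star this
    rw [star_mul, star_mul, star_star] at this
    exact this.symm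
  have h4 : ∀ y : H →L[ℂ] H, C * y = 0 → f * y = 0 := by
    intro y hy
    have a1 : star y * C = 0 := by
      have := congrArg star hy
      rwa [star_mul, hC, star_zero] at this
    have a2 := congrArg star (h3 _ a1)
    rwa [star_mul, star_star, hfs, star_zero] at a2
  have h5 : ∀ X ∈ S.centralizer, ∀ Y ∈ S.centralizer,
      f * X * C * C * Y * f = f * Y * C * C * X * f := by
    intro X hX Y hY
    have a1 : (C * X * C * C * Y - C * Y * C * C * X) * C = 0 := by
      have := hcomm X hX Y hY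
      rw [sub_mul, sub_eq_zero]
      simpa only [mul_assoc] using this
    have a2 := h3 _ a1
    have a3 : C * ((X * C * C * Y - Y * C * C * X) * f) = 0 := by
      rw [← a2]
      simp only [sub_mul, mul_sub, mul_assoc]
    have a4 := h4 _ a3
    rw [sub_mul, mul_sub, sub_eq_zero] at a4
    simpa only [mul_assoc] using a4
  have h6 : ∀ X ∈ S.centralizer, f * X * C * C = C * C * X * f := by
    intro X hX
    have := h5 X hX 1 (Set.one_mem_centralizer)
    rw [mul_one, mul_one, mul_assoc _ C f, h2, h1] at this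
    exact this
  intro X hX Y hY
  have h7 : C * (C * (f * X * f * Y * f - f * Y * f * X * f)) = 0 := by
    have b : ∀ X ∈ S.centralizer, ∀ Y ∈ S.centralizer,
        C * (C * (f * X * f * Y * f)) = f * X * C * C * Y * f := by
      intro X hX Y hY
      calc C * (C * (f * X * f * Y * f)) = C * (C * f) * X * f * Y * f := by
            simp only [mul_assoc]
        _ = (C * C * X * f) * Y * f := by rw [h2]
        _ = f * X * C * C * Y * f := by rw [← h6 X hX]
    rw [mul_sub, mul_sub, b X hX Y hY, b Y hY X hX, h5 X hX Y hY, sub_self]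
  set Z := f * X * f * Y * f - f * Y * f * X * f with hZ
  have h8 : f * (C * Z) = 0 := h4 _ h7
  rw [← mul_assoc, h1] at h8
  have h9 := h4 _ h8
  have h10 : f * Z = Z := by
    rw [hZ, mul_sub]
    simp only [← mul_assoc, hff]
  rw [h10, hZ, sub_eq_zero] at h9
  exact h9

theorem star_mem_cent {S : Set (H →L[ℂ] H)} (hS : ∀ x ∈ S, star x ∈ S) {X : H →L[ℂ] H}
    (hX : X ∈ S.centralizer) : star X ∈ S.centralizer := by
  intro s hs
  have := hX (star s) (hS s hs)
  have := congrArg star this
  rw [star_mul, star_mul, star_star] at this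
  exact this.symm

theorem sub_mem_cent {S : Set (H →L[ℂ] H)} {X Y : H →L[ℂ] H}
    (hX : X ∈ S.centralizer) (hY : Y ∈ S.centralizer) : X - Y ∈ S.centralizer := by
  intro s hs
  rw [mul_sub, sub_mul, hX s hs, hY s hs]

end vn

section rep
variable {B : Type u} [CStarAlgebra B] [PartialOrder B] [StarOrderedRing B]
  {H : Type u} [NormedAddCommGroup H] [InnerProductSpace ℂ H] [CompleteSpace H]

theorem extB (h9 : KapP.{u}) (h10 : TwoNormP.{u}) (φ : TState B) (π : B →⋆ₐ[ℂ] (H →L[ℂ] H))
    (ρ : B → (H →L[ℂ] H)) (ξ : H) (hrep : IsRep φ π ρ ξ) (hFV : FV (Set.range ρ) ξ)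
    (hmem : ∀ a, π a ∈ (Set.range ρ).centralizer) (C Y : H →L[ℂ] H)
    (hC : C ∈ (Set.range ρ).centralizer) (hY : Y ∈ (Set.range ρ).centralizer)
    (h : ∀ x : B, C * π x * C * (C * Y * C) = C * Y * C * (C * π x * C)) :
    ∀ X ∈ (Set.range ρ).centralizer, C * X * C * (C * Y * C) = C * Y * C * (C * X * C) := by
  have hone : ∀ X ∈ (Set.range ρ).centralizer, ‖X‖ ≤ 1 →
      C * X * C * (C * Y * C) = C * Y * C * (C * X * C) := by
    intro X hX hX1
    rw [← sub_eq_zero]
    apply hFV.sep
    · refine sub_mem_cent ?_ ?_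
      · exact Set.mul_mem_centralizer (Set.mul_mem_centralizer (Set.mul_mem_centralizer hC hX) hC)
          (Set.mul_mem_centralizer (Set.mul_mem_centralizer hC hY) hC)
      · exact Set.mul_mem_centralizer (Set.mul_mem_centralizer (Set.mul_mem_centralizer hC hY) hC)
          (Set.mul_mem_centralizer (Set.mul_mem_centralizer hC hX) hC)
    · rw [← norm_le_zero_iff]
      refine le_of_forall_pos_le_add fun ε hε => ?_
      set K : ℝ := ‖C‖ * ‖C * (C * Y * C)‖ + ‖C * Y * C * C‖ * ‖C‖ with hK
      have hK0 : 0 ≤ K := by positivity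
      obtain ⟨x, -, hx⟩ := h9 B φ H π ρ ξ hrep X hX hX1 (ε / (K + 1)) (by positivity)
      have ht : X - π x ∈ (Set.range ρ).centralizer := sub_mem_cent hX (hmem x)
      have htn : ‖(X - π x) ξ‖ ≤ ε / (K + 1) := by
        rw [_root_.sub_apply, norm_sub_rev]
        exact hx.le
      have e : C * X * C * (C * Y * C) - C * Y * C * (C * X * C) =
          C * (X - π x) * (C * (C * Y * C)) - C * Y * C * C * (X - π x) * C := by
        have e1 := h x
        rw [← sub_eq_zero] at e1
        rw [← sub_zero (C * X * C * (C * Y * C) - C * Y * C * (C * X * C)), ← e1]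
        simp only [mul_sub, sub_mul, mul_assoc]
        abel
      rw [e, _root_.sub_apply, zero_add]
      have b1 := (h10 H _ ξ hFV).2 C hC (X - π x) ht (C * (C * Y * C))
        (Set.mul_mem_centralizer hC (Set.mul_mem_centralizer (Set.mul_mem_centralizer hC hY) hC))
      have b2 := (h10 H _ ξ hFV).2 (C * Y * C * C)
        (Set.mul_mem_centralizer (Set.mul_mem_centralizer (Set.mul_mem_centralizer hC hY) hC) hC)
        (X - π x) ht C hC
      calc _ ≤ ‖(C * (X - π x) * (C * (C * Y * C))) ξ‖ + ‖(C * Y * C * C * (X - π x) * C) ξ‖ :=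
            norm_sub_le _ _
        _ ≤ ‖C‖ * ‖C * (C * Y * C)‖ * ‖(X - π x) ξ‖ + ‖C * Y * C * C‖ * ‖C‖ * ‖(X - π x) ξ‖ :=
            add_le_add b1 b2
        _ = K * ‖(X - π x) ξ‖ := by rw [hK]; ring
        _ ≤ (K + 1) * (ε / (K + 1)) :=
            mul_le_mul (by linarith) htn (norm_nonneg _) (by positivity)
        _ = ε := by
            have : K + 1 ≠ 0 := by positivity
            field_simp
  intro X hX
  set r : ℂ := ((‖X‖ + 1 : ℝ) : ℂ) with hr
  have hr0 : r ≠ 0 := by
    rw [hr]
    exact_mod_cast (by positivity : (‖X‖ + 1 : ℝ) ≠ 0)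
  have hX' : r⁻¹ • X ∈ (Set.range ρ).centralizer := by
    intro s hs
    rw [mul_smul_comm, smul_mul_assoc, hX s hs]
  have h1 := hone (r⁻¹ • X) hX' (by
    rw [norm_smul, norm_inv, hr, Complex.norm_real, Real.norm_of_nonneg (by positivity)]
    rw [inv_mul_le_iff₀ (by positivity)]
    linarith)
  have h2 := congrArg (fun T => r • T) h1
  simp only [mul_smul_comm, smul_mul_assoc, smul_smul, mul_inv_cancel₀ hr0, one_smul] at h2
  exact h2

theorem noncomm (h3 : RepFVP.{u}) (hAb : AbRepP.{u}) (hPol : PolarP.{u}) (h9 : KapP.{u})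
    (h10 : TwoNormP.{u}) (hB : NoFin B) (φ : TState B) (c : B) (hc : 0 ≤ c)
    (hφ : 0 < (φ.φ c).re) (π : B →⋆ₐ[ℂ] (H →L[ℂ] H)) (ρ : B → (H →L[ℂ] H)) (ξ : H)
    (hrep : IsRep φ π ρ ξ) :
    ∃ x y : B, IsSelfAdjoint x ∧
      π (c * x * c) * π (c * y * c) ≠ π (c * y * c) * π (c * x * c) := by
  by_contra hcon
  push Not at hcon
  obtain ⟨hFV, hmem⟩ := h3 B φ H π ρ ξ hrep
  have hcs : star c = c := hc.isSelfAdjoint
  have hCs : star (π c) = π c := by rw [← map_star, hcs]
  obtain ⟨v, hv, hp1, hp2, hvx, hxv, hl, hr⟩ := hPol H (Set.range ρ) hFV.star (π c) (hmem c)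
  have hfN : v * star v ∈ (Set.range ρ).centralizer :=
    Set.mul_mem_centralizer hv (star_mem_cent hFV.star hv)
  have hfs : star (v * star v) = v * star v := hp1.isSelfAdjoint
  have hCf : π c * (v * star v) = π c := by
    have := congrArg star hvx
    rwa [star_mul, hfs, hCs] at this
  have hf0 : v * star v ≠ 0 := by
    intro h0
    rw [h0, zero_mul] at hvx
    have := hrep.inner c
    rw [← hvx] at this
    simp only [_root_.zero_apply, inner_zero_right] at this
    rw [← this] at hφ
    simp at hφ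
  -- commutation for elements of `B`
  have hBB : ∀ x y : B, π c * π x * π c * (π c * π y * π c) =
      π c * π y * π c * (π c * π x * π c) := by
    have hsa : ∀ x y : B, IsSelfAdjoint x → π c * π x * π c * (π c * π y * π c) =
        π c * π y * π c * (π c * π x * π c) := by
      intro x y hx
      have := hcon x y hx
      simpa only [map_mul] using this
    intro x y
    have hx : x = (realPart x : B) + Complex.I • (imaginaryPart x : B) :=
      (realPart_add_I_smul_imaginaryPart x).symm
    have a1 := hsa (realPart x : B) y (realPart x).2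
    have a2 := hsa (imaginaryPart x : B) y (imaginaryPart x).2
    rw [hx, map_add, map_smul]
    simp only [mul_add, add_mul, mul_smul_comm, smul_mul_assoc]
    rw [a1, a2]
  have hBN : ∀ (y : B), ∀ X ∈ (Set.range ρ).centralizer,
      π c * X * π c * (π c * π y * π c) = π c * π y * π c * (π c * X * π c) := fun y =>
    extB h9 h10 φ π ρ ξ hrep hFV hmem (π c) (π y) (hmem c) (hmem y) (fun x => hBB x y)
  have hNN : ∀ Y ∈ (Set.range ρ).centralizer, ∀ X ∈ (Set.range ρ).centralizer,
      π c * X * π c * (π c * Y * π c) = π c * Y * π c * (π c * X * π c) := fun Y hY =>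
    extB h9 h10 φ π ρ ξ hrep hFV hmem (π c) Y (hmem c) hY (fun x => (hBN x Y hY).symm)
  obtain ⟨X, hX, Y, hY, hXY⟩ := noAbB h3 hAb B hB φ H π ρ ξ hrep (v * star v) hfN hp1 hf0
  exact hXY (corner (Set.range ρ) hFV.star (π c) (v * star v) hCs hp1 hvx hCf hl
    (fun X hX Y hY => hNN Y hY X hX) X hX Y hY)

end rep

end Half83

open Half83 in
/-- Packet AR-Half. -/
theorem halfP (h1 : GnsP.{u}) (h3 : RepFVP.{u}) (hAb : AbRepP.{u}) (hPol : PolarP.{u})
    (h9 : KapP.{u}) (h10 : TwoNormP.{u}) (hNc : NcP.{u}) (hSwap : CuSwapP.{u})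
    (hMono : QMonoP.{u}) (hDs : QDsumP.{u}) : HalfP.{u} := by
  intro B _ _ _ hB φ c hc hφ
  obtain ⟨H, _, _, _, π, ρ, ξ, hrep⟩ := h1 B φ
  obtain ⟨hFV, hmem⟩ := h3 B φ H π ρ ξ hrep
  obtain ⟨x, y, hx, hxy⟩ := noncomm h3 hAb hPol h9 h10 hB φ c hc hφ π ρ ξ hrep
  have hcs : IsSelfAdjoint c := hc.isSelfAdjoint
  have hx0 : IsSelfAdjoint (c * x * c) := by
    have : star (c * x * c) = c * x * c := by
      rw [star_mul, star_mul, hcs.star_eq, hx.star_eq, mul_assoc]
    exact this
  obtain ⟨g, h, hg, hh, -, -, hgh, hne⟩ := hNc (H →L[ℂ] H) (π (c * x * c)) (π (c * y * c))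
    (hx0.map π) hxy
  set w : B := cfc g (c * x * c) * (c * y * c) * cfc h (c * x * c) with hw
  have hπw : π w ≠ 0 := by
    rw [hw, map_mul, map_mul, starHom_cfc π g hg _ hx0, starHom_cfc π h hh _ hx0]
    exact hne
  have hhg : cfc h (c * x * c) * cfc g (c * x * c) = 0 := by
    rw [← cfc_mul h g (c * x * c) hh.continuousOn hg.continuousOn]
    have : (fun t => h t * g t) = fun _ => (0 : ℝ) := by
      funext t
      rw [mul_comm]
      exact hgh t
    rw [this, cfc_const_zero]
  have hww : w * w = 0 := by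
    calc w * w = cfc g (c * x * c) * (c * y * c) * (cfc h (c * x * c) * cfc g (c * x * c)) *
          (c * y * c) * cfc h (c * x * c) := by
          rw [hw]
          simp only [mul_assoc]
      _ = 0 := by rw [hhg]; simp
  refine ⟨sq w, star_mul_self_nonneg w, ?_, ?_⟩
  · have h0 : φ.φ (star w * w) = ((‖π w ξ‖ ^ 2 : ℝ) : ℂ) := by
      rw [← hrep.inner, map_mul, map_star]
      rw [show (star (π w) * π w) ξ = star (π w) (π w ξ) from rfl,
        ContinuousLinearMap.star_eq_adjoint,
        ContinuousLinearMap.adjoint_inner_right, inner_self_eq_norm_sq_to_K]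
      push_cast
      rfl
    change 0 < (φ.φ (star w * w)).re
    rw [h0, Complex.ofReal_re]
    have h1 : π w ξ ≠ 0 := fun h => hπw (hFV.sep _ (hmem w) h)
    have := norm_pos_iff.2 h1
    positivity
  · intro σ
    have hz : IsSelfAdjoint (w + star w) := by
      have : star (w + star w) = w + star w := by rw [star_add, star_star, add_comm]
      exact this
    have hin : InH c (w + star w) := by
      have a := inH_w c x y hcs hx0 g h hg hh
      exact a.add (inH_star hcs a)
    have hzz : 0 ≤ one1 ((w + star w) * (w + star w)) := by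
      refine one1_nonneg ?_
      have := star_mul_self_nonneg (w + star w)
      rwa [hz.star_eq] at this
    exact (two_dim hSwap hMono hDs σ w hww).trans
      (hMono B σ Unit Unit _ _ hzz (one1_nonneg hc) (cu_of_inH hc hz hin))

end RC
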